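import Pool.Agent.Lib.MP_407fc5_gt.Z02

/-!
# MP_407fc5_gt: the hyperbolic torsion polynomial does not determine a knot up to mutation

The knots are `K = D₁` and `K' = D₂`, `D₁ = top ++ box1 ++ bot`, `D₂ = top ++ box2 ++ bot`
(`Pool.Agent.Lib.MP_407fc5_gt.TDefs`), diagrams with 33 crossings and 5 maxima; the second one is
obtained from the first one by replacing the antiparallel double of a tangle by the antiparallel
double of the rotated tangle.
-/

namespace Pool.Agent.Results.MP_407fc5_gt.EqualTorsionNotMutants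

open TorMut Matrix MatrixGroups

/-- **The conjecture is false.**  There are two hyperbolic knots which are not mutants of each other
and have the same hyperbolic torsion polynomial: `α₁`, `α₂` are the lifts (with meridian trace `2`) of
the holonomies of the complete hyperbolic structures of the complements of the knots `D₁`, `D₂`,
`φ₁`, `φ₂` are the abelianisations, `wada D α φ t` is Wada's twisted Alexander invariant of the
representation `g ↦ t ^ φ(g) α(g)`; the two invariants agree for all `t`, and they are not identically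
zero. -/
theorem result :
    ∃ (D₁ D₂ : Word) (α₁ : LinkGroup D₁ →* SL(2, ℂ)) (α₂ : LinkGroup D₂ →* SL(2, ℂ))
      (φ₁ : LinkGroup D₁ →* Multiplicative ℤ) (φ₂ : LinkGroup D₂ →* Multiplicative ℤ),
      IsKnot D₁ ∧ IsKnot D₂ ∧ IsHolonomyLift D₁ α₁ ∧ IsHolonomyLift D₂ α₂ ∧
      Function.Surjective φ₁ ∧ Function.Surjective φ₂ ∧
      (∀ t : ℂˣ, wada D₁ α₁ φ₁ t = wada D₂ α₂ φ₂ t) ∧
      (∃ t : ℂˣ, t ≠ 1 ∧ wada D₁ α₁ φ₁ t ≠ 0) ∧
      ¬ Mutants D₁ D₂ :=
  TorMut.goal

end Pool.Agent.Results.MP_407fc5_gt.EqualTorsionNotMutants
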